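import Pool.Agent.H73.SuppDefs

/-!
# For the finitary symmetric group no `U_x` is open in the semi-Zariski topology

`FSym(X)`, with the usual support, is supp-perfect. For a point `x`, the stabiliser
`Fix(x) = FSym(X) \ U_x` is dense in the semi-Zariski topology: a proper basic closed set
meets `Fix(x)` in a coset of a subgroup of infinite index (or in the empty set), and by
B. H. Neumann's lemma a group is not a finite union of such cosets.
-/

namespace Pool.Agent.Results.MP_496bc7_gt.FinitaryPerms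

open Pool.Agent.H73.Supp Set
open scoped Topology Pointwise

/-- The finitary symmetric group `FSym(X)`: all permutations of `X` which move only finitely many
points. -/
def FSym (X : Type*) : Subgroup (Equiv.Perm X) where
  carrier := {g | {x | g x ≠ x}.Finite}
  one_mem' := by simp
  mul_mem' {g h} hg hh := by
    refine (Set.Finite.union hg hh).subset ?_
    intro x hx
    by_contra hcon
    simp only [Set.mem_union, Set.mem_ofPred_eq, not_or, not_not] at hcon
    apply hx
    rw [Equiv.Perm.mul_apply, hcon.2, hcon.1]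
  inv_mem' {g} hg := by
    refine Set.Finite.subset hg ?_
    intro x hx hx'
    apply hx
    rw [Equiv.Perm.inv_eq_iff_eq]
    exact hx'.symm

/-- The support of a finitary permutation: the set of the points which it moves. -/
def suppF (X : Type*) (g : FSym X) : Set X := {x | (g : Equiv.Perm X) x ≠ x}

variable {X : Type*}

lemma mem_suppF {g : FSym X} {x : X} : x ∈ suppF X g ↔ g.1 x ≠ x := Iff.rfl

/-- A transposition as an element of `FSym`. -/
noncomputable def tr (y z : X) : FSym X := by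
  classical
  exact ⟨Equiv.swap y z, by
    refine (Set.toFinite {y, z}).subset ?_
    intro x hx
    by_contra hcon
    simp only [Set.mem_insert_iff, Set.mem_singleton_iff, not_or] at hcon
    exact hx (Equiv.swap_apply_of_ne_of_ne hcon.1 hcon.2)⟩

lemma tr_left (y z : X) : (tr y z).1 y = z := by
  classical
  simp [tr]

lemma tr_right (y z : X) : (tr y z).1 z = y := by
  classical
  simp [tr]

lemma tr_of_ne {y z x : X} (h1 : x ≠ y) (h2 : x ≠ z) : (tr y z).1 x = x := by
  classical
  simpa [tr] using Equiv.swap_apply_of_ne_of_ne h1 h2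

lemma finite_supp (g : FSym X) : (suppF X g).Finite := g.2

lemma comm_of_disjoint (g h : FSym X) (hgh : suppF X g ∩ suppF X h = ∅) : g * h = h * g := by
  apply Subtype.ext
  have hd : Equiv.Perm.Disjoint g.1 h.1 := by
    intro x
    by_contra hcon
    rw [not_or] at hcon
    have : x ∈ suppF X g ∩ suppF X h := hcon
    rw [hgh] at this
    exact this
  exact hd.commute

lemma finite_supportedIn (F : Set X) (hF : F.Finite) : (supportedIn (suppF X) F).Finite := by
  classical
  have : Finite F := hF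
  have : Finite {f : Equiv.Perm X // ∀ a, ¬ a ∈ F → f a = a} :=
    Finite.of_equiv _ (Equiv.Perm.subtypeEquivSubtypePerm (fun a => a ∈ F))
  have hinj : Function.Injective (fun g : supportedIn (suppF X) F =>
      (⟨g.1.1, fun a ha => by
        by_contra hcon
        exact ha (g.2 hcon)⟩ : {f : Equiv.Perm X // ∀ a, ¬ a ∈ F → f a = a})) := by
    intro g h hgh
    apply Subtype.ext
    apply Subtype.ext
    simpa using hgh
  exact Finite.of_injective _ hinj

lemma supportedIn_eq [Infinite X] (F : Set X) (hF : F.Finite) :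
    supportedIn (suppF X) F = Cent (supportedIn (suppF X) Fᶜ) := by
  apply Set.Subset.antisymm
  · intro a ha t ht
    apply comm_of_disjoint
    apply Set.eq_empty_of_forall_notMem
    rintro x ⟨h1, h2⟩
    exact ht h2 (ha h1)
  · intro g hg x hx
    by_contra hxF
    obtain ⟨y, hy⟩ := Set.Infinite.nonempty
      (Set.Finite.infinite_compl (hF.union (Set.toFinite {x, g.1 x})))
    simp only [Set.mem_compl_iff, Set.mem_union, Set.mem_insert_iff, Set.mem_singleton_iff,
      not_or] at hy
    have htr : tr x y ∈ supportedIn (suppF X) Fᶜ := by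
      intro z hz
      by_contra hcon
      have hcon' : z ∈ F := by simpa using hcon
      exact hz (tr_of_ne (fun h => hxF (h ▸ hcon')) (fun h => hy.1 (h ▸ hcon')))
    have h := hg _ htr
    have h2 := congrArg (fun k : FSym X => k.1 x) h
    simp only [Subgroup.coe_mul, Equiv.Perm.mul_apply, tr_left] at h2
    rw [tr_of_ne hx (Ne.symm hy.2.2)] at h2
    exact hy.2.1 (g.1.injective h2)

lemma isSuppPerfect [Infinite X] : IsSuppPerfect (suppF X) where
  isSuppSemigroup := {
    mul_subset := by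
      intro f g x hx
      by_contra hcon
      simp only [Set.mem_union, mem_suppF, not_or, not_not] at hcon
      apply hx
      rw [Subgroup.coe_mul, Equiv.Perm.mul_apply, hcon.2, hcon.1]
    comm := comm_of_disjoint
    union_eq := by
      rw [Set.eq_univ_iff_forall]
      intro x
      obtain ⟨y, hy⟩ := exists_ne x
      exact Set.mem_iUnion.2 ⟨tr x y, by rw [mem_suppF, tr_left]; exact hy⟩ }
  finite_supp := finite_supp
  finite_supportedIn := finite_supportedIn
  supportedIn_eq := supportedIn_eq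

/-- The stabiliser of `x` in `FSym(X)`. -/
def Fix (x : X) : Subgroup (FSym X) where
  carrier := {g | g.1 x = x}
  one_mem' := by simp
  mul_mem' {g h} hg hh := by
    simp only [Set.mem_ofPred_eq] at hg hh ⊢
    rw [Subgroup.coe_mul, Equiv.Perm.mul_apply, hh, hg]
  inv_mem' {g} hg := by
    simp only [Set.mem_ofPred_eq] at hg ⊢
    rw [Subgroup.coe_inv, Equiv.Perm.inv_eq_iff_eq]
    exact hg.symm

lemma mem_Fix {x : X} {g : FSym X} : g ∈ Fix x ↔ g.1 x = x := Iff.rfl

/-- The transposition `(y z)` as an element of `Fix x`. -/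
noncomputable def trFix (x y z : X) (hy : y ≠ x) (hz : z ≠ x) : Fix x :=
  ⟨tr y z, tr_of_ne hy.symm hz.symm⟩

/-- The subgroup of the elements of `Fix x` which commute with `h`. -/
def CF (x : X) (h : FSym X) : Subgroup (Fix x) where
  carrier := {p | p.1 * h = h * p.1}
  one_mem' := by simp
  mul_mem' {p q} hp hq := by
    simp only [Set.mem_ofPred_eq, Subgroup.coe_mul] at hp hq ⊢
    rw [mul_assoc, hq, ← mul_assoc, hp, mul_assoc]
  inv_mem' {p} hp := by
    simp only [Set.mem_ofPred_eq, Subgroup.coe_inv] at hp ⊢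
    rw [inv_mul_eq_iff_eq_mul, ← mul_assoc, hp, mul_assoc, mul_inv_cancel, mul_one]

lemma mem_CF {x : X} {h : FSym X} {p : Fix x} : p ∈ CF x h ↔ p.1 * h = h * p.1 := Iff.rfl

/-- For `h ≠ 1` the centraliser of `h` has infinite index in `Fix x`. -/
lemma not_finiteIndex_CF [Infinite X] (x : X) {h : FSym X} (hh : h ≠ 1) :
    ¬ (CF x h).FiniteIndex := by
  intro hfin
  -- a point `y ≠ x` moved by `h`
  obtain ⟨y, hyx, hy⟩ : ∃ y, y ≠ x ∧ h.1 y ≠ y := by
    obtain ⟨w, hw⟩ : ∃ w, h.1 w ≠ w := by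
      by_contra hcon
      push Not at hcon
      exact hh (Subtype.ext (Equiv.ext (by simpa using hcon)))
    by_cases hwx : w = x
    · subst hwx
      exact ⟨h.1 w, hw, fun hc => hw (h.1.injective hc)⟩
    · exact ⟨w, hwx, hw⟩
  -- infinitely many admissible `z`
  have hinf : Set.Infinite (suppF X h ∪ {x, y})ᶜ :=
    Set.Finite.infinite_compl ((finite_supp h).union (Set.toFinite {x, y}))
  have : Infinite ↥((suppF X h ∪ {x, y})ᶜ) := hinf.to_subtype
  have hne : ∀ z : ↥((suppF X h ∪ {x, y})ᶜ), h.1 z.1 = z.1 ∧ z.1 ≠ x ∧ z.1 ≠ y := by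
    rintro ⟨z, hz⟩
    simp only [Set.mem_compl_iff, Set.mem_union, Set.mem_insert_iff, Set.mem_singleton_iff,
      not_or, mem_suppF, not_not] at hz
    exact ⟨hz.1, hz.2.1, hz.2.2⟩
  have : Finite (Fix x ⧸ CF x h) := Subgroup.finite_quotient_of_finiteIndex
  obtain ⟨z, z', hzz', hq⟩ := Finite.exists_ne_map_eq_of_infinite
    (fun z : ↥((suppF X h ∪ {x, y})ᶜ) =>
      (QuotientGroup.mk (trFix x y z.1 hyx (hne z).2.1) : Fix x ⧸ CF x h))
  rw [QuotientGroup.eq, mem_CF] at hq
  obtain ⟨hz1, hz2, hz3⟩ := hne z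
  obtain ⟨hz1', hz2', hz3'⟩ := hne z'
  have hzz : z.1 ≠ z'.1 := fun hc => hzz' (Subtype.ext hc)
  have e1 : (tr y z.1)⁻¹ * tr y z'.1 * h = h * ((tr y z.1)⁻¹ * tr y z'.1) := hq
  -- hence the two conjugates of `h` agree
  have e2 : tr y z'.1 * h * (tr y z'.1)⁻¹ = tr y z.1 * h * (tr y z.1)⁻¹ := by
    have : tr y z'.1 * h = tr y z.1 * h * (tr y z.1)⁻¹ * tr y z'.1 := by
      calc tr y z'.1 * h = tr y z.1 * ((tr y z.1)⁻¹ * tr y z'.1 * h) := by group
        _ = tr y z.1 * (h * ((tr y z.1)⁻¹ * tr y z'.1)) := by rw [e1]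
        _ = _ := by group
    rw [this]; group
  have e3 := congrArg (fun k : FSym X => k.1 z.1) e2
  simp only [Subgroup.coe_mul, Subgroup.coe_inv, Equiv.Perm.mul_apply] at e3
  have i1 : (tr y z'.1).1⁻¹ z.1 = z.1 := by
    rw [Equiv.Perm.inv_eq_iff_eq]; exact (tr_of_ne hz3 hzz).symm
  have i2 : (tr y z.1).1⁻¹ z.1 = y := by
    rw [Equiv.Perm.inv_eq_iff_eq]; exact (tr_left y z.1).symm
  rw [i1, i2, hz1, tr_of_ne hz3 hzz] at e3
  -- `e3 : z = (y z) (h y)`
  have e4 : (tr y z.1).1 y = (tr y z.1).1 (h.1 y) := by rw [tr_left]; exact e3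
  exact hy ((tr y z.1).1.injective e4).symm

lemma not_finiteIndex_bot [Infinite X] (x : X) : ¬ (⊥ : Subgroup (Fix x)).FiniteIndex := by
  intro hfin
  obtain ⟨y, hyx⟩ := exists_ne x
  have hinf : Set.Infinite ({x, y} : Set X)ᶜ := Set.Finite.infinite_compl (Set.toFinite {x, y})
  have : Infinite ↥(({x, y} : Set X)ᶜ) := hinf.to_subtype
  have : Finite (Fix x ⧸ (⊥ : Subgroup (Fix x))) := Subgroup.finite_quotient_of_finiteIndex
  obtain ⟨z, z', hzz', hq⟩ := Finite.exists_ne_map_eq_of_infinite
    (fun z : ↥(({x, y} : Set X)ᶜ) =>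
      (QuotientGroup.mk (trFix x y z.1 hyx (fun hc => z.2 (Or.inl hc))) :
        Fix x ⧸ (⊥ : Subgroup (Fix x))))
  rw [QuotientGroup.eq, Subgroup.mem_bot, inv_mul_eq_one] at hq
  have hq' : tr y z.1 = tr y z'.1 := congrArg Subtype.val hq
  have := congrArg (fun k : FSym X => k.1 y) hq'
  simp only [tr_left] at this
  exact hzz' (Subtype.ext this)

/-- A translate of `WithOne` sandwiches to the group. -/
lemma exists_sandwich {G : Type*} [Group G] (a b : WithOne G) :
    ∃ A B : G, ∀ s : G, a * (s : WithOne G) * b = ((A * s * B : G) : WithOne G) := by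
  have key : ∀ a : WithOne G, a = 1 ∨ ∃ c : G, a = (c : WithOne G) := by
    intro a
    by_cases ha : a = 1
    · exact Or.inl ha
    · obtain ⟨c, hc⟩ := WithOne.ne_one_iff_exists.1 ha
      exact Or.inr ⟨c, hc.symm⟩
  obtain rfl | ⟨A, rfl⟩ := key a
  · obtain rfl | ⟨B, rfl⟩ := key b
    · exact ⟨1, 1, fun s => by simp⟩
    · exact ⟨1, B, fun s => by simp⟩
  · obtain rfl | ⟨B, rfl⟩ := key b
    · exact ⟨A, 1, fun s => by simp⟩
    · exact ⟨A, B, fun s => by simp⟩

/-- A proper subbasic closed set meets `Fix x` inside a coset of a subgroup of infinite index. -/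
lemma subbasic [Infinite X] (x : X) (V : Set (FSym X)) (hne : V.Nonempty)
    (hV : V ∈ ({V | ∃ a b c : WithOne (FSym X),
        V = {s : FSym X | a * (s : WithOne (FSym X)) * b ≠ c}} ∪
      {V | ∃ a b c d : WithOne (FSym X), V = {s : FSym X |
        a * (s : WithOne (FSym X)) * b ≠ c * (s : WithOne (FSym X)) * d}} :
        Set (Set (FSym X)))) :
    ∃ (g : Fix x) (H : Subgroup (Fix x)), ¬ H.FiniteIndex ∧
      ∀ p : Fix x, p.1 ∉ V → p ∈ g • (H : Set (Fix x)) := by
  rcases hV with ⟨a, b, c, rfl⟩ | ⟨a, b, c, d, rfl⟩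
  · obtain ⟨A, B, hAB⟩ := exists_sandwich a b
    -- the complement has at most one point
    by_cases hex : ∃ p : Fix x, a * ((p.1 : FSym X) : WithOne (FSym X)) * b = c
    · obtain ⟨p, hp⟩ := hex
      refine ⟨p, ⊥, not_finiteIndex_bot x, fun q hq => ?_⟩
      simp only [Set.mem_ofPred_eq, not_not] at hq
      rw [← hp, hAB, hAB, WithOne.coe_inj] at hq
      have : q.1 = p.1 := by simpa using hq
      rw [Set.mem_smul_set_iff_inv_smul_mem, smul_eq_mul, SetLike.mem_coe, Subgroup.mem_bot,
        inv_mul_eq_one]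
      exact (Subtype.ext this).symm
    · refine ⟨1, ⊥, not_finiteIndex_bot x, fun q hq => ?_⟩
      simp only [Set.mem_ofPred_eq, not_not] at hq
      exact absurd ⟨q, hq⟩ hex
  · obtain ⟨A, B, hAB⟩ := exists_sandwich a b
    obtain ⟨C, D, hCD⟩ := exists_sandwich c d
    simp only [hAB, hCD, ne_eq, WithOne.coe_inj] at hne ⊢
    by_cases hex : ∃ p : Fix x, A * p.1 * B = C * p.1 * D
    · obtain ⟨p, hp⟩ := hex
      have hBD : B * D⁻¹ ≠ 1 := by
        intro hBD
        have hBD' : B = D := by rwa [mul_inv_eq_one] at hBD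
        subst hBD'
        have hAC : A = C := by simpa using hp
        obtain ⟨s, hs⟩ := hne
        exact hs (by rw [hAC])
      refine ⟨p, CF x (B * D⁻¹), not_finiteIndex_CF x hBD, fun q hq => ?_⟩
      simp only [Set.mem_ofPred_eq, not_not] at hq
      rw [Set.mem_smul_set_iff_inv_smul_mem, smul_eq_mul, SetLike.mem_coe, mem_CF]
      have hp' : C⁻¹ * A = p.1 * (D * B⁻¹) * p.1⁻¹ := by
        have : A = C * p.1 * D * B⁻¹ * p.1⁻¹ := by rw [← hp]; group
        rw [this]; group
      have hq' : C⁻¹ * A = q.1 * (D * B⁻¹) * q.1⁻¹ := by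
        have : A = C * q.1 * D * B⁻¹ * q.1⁻¹ := by rw [← hq]; group
        rw [this]; group
      have hpq : p.1 * (D * B⁻¹) * p.1⁻¹ = q.1 * (D * B⁻¹) * q.1⁻¹ := hp'.symm.trans hq'
      have hpq' : p.1 * (B * D⁻¹) * p.1⁻¹ = q.1 * (B * D⁻¹) * q.1⁻¹ := by
        have := congrArg (·⁻¹) hpq
        simpa [mul_assoc] using this
      change p.1⁻¹ * q.1 * (B * D⁻¹) = B * D⁻¹ * (p.1⁻¹ * q.1)
      calc p.1⁻¹ * q.1 * (B * D⁻¹) = p.1⁻¹ * (q.1 * (B * D⁻¹) * q.1⁻¹) * q.1 := by group
        _ = p.1⁻¹ * (p.1 * (B * D⁻¹) * p.1⁻¹) * q.1 := by rw [hpq']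
        _ = _ := by group
    · refine ⟨1, ⊥, not_finiteIndex_bot x, fun q hq => ?_⟩
      simp only [Set.mem_ofPred_eq, not_not] at hq
      exact absurd ⟨q, hq⟩ hex

/-- `Fix x` is dense in the semi-Zariski topology. -/
lemma dense_Fix [Infinite X] (x : X) :
    @Dense (FSym X) (semiZariski (FSym X)) ((U (suppF X) x)ᶜ) := by
  let _ := semiZariski (FSym X)
  rw [dense_iff_inter_open]
  intro V hV hne
  obtain ⟨g₀, hg₀⟩ := hne
  obtain ⟨W, ⟨f, ⟨hfin, hsub⟩, rfl⟩, hgW, hWV⟩ :=
    (TopologicalSpace.isTopologicalBasis_of_subbasis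
      (rfl : semiZariski (FSym X) = TopologicalSpace.generateFrom _)).exists_subset_of_mem_open
        hg₀ hV
  by_contra hcon
  rw [Set.not_nonempty_iff_eq_empty] at hcon
  -- each member of `f` gives a coset
  have hch : ∀ V : f, ∃ (g : Fix x) (H : Subgroup (Fix x)), ¬ H.FiniteIndex ∧
      ∀ p : Fix x, p.1 ∉ V.1 → p ∈ g • (H : Set (Fix x)) := fun V =>
    subbasic x V.1 ⟨g₀, hgW V.1 V.2⟩ (hsub V.2)
  choose g H hH hgH using hch
  have : Fintype f := hfin.fintype
  have hcover : ⋃ i ∈ (Finset.univ : Finset f), (g i) • (H i : Set (Fix x)) = Set.univ := by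
    rw [Set.eq_univ_iff_forall]
    intro p
    have hp : p.1 ∉ ⋂₀ f := by
      intro hp
      have : p.1 ∈ V ∩ (U (suppF X) x)ᶜ := ⟨hWV hp, fun hc => hc p.2⟩
      rw [hcon] at this
      exact this
    rw [Set.mem_sInter] at hp
    push Not at hp
    obtain ⟨W, hW, hpW⟩ := hp
    simp only [Set.mem_iUnion, Finset.mem_univ, exists_true_left]
    exact ⟨⟨W, hW⟩, hgH _ p hpW⟩
  obtain ⟨k, -, hk⟩ := Subgroup.exists_finiteIndex_of_leftCoset_cover hcover
  exact hH k hk

/-- **A negative answer to Q1 for the finitary symmetric group of any infinite set.** It is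
supp-perfect with the usual support, but no `U_x` is open in the semi-Zariski topology; in fact
the complement of `U_x` is dense. -/
theorem result (X : Type*) [Infinite X] :
    IsSuppPerfect (suppF X) ∧ ∀ x : X,
      @Dense (FSym X) (semiZariski (FSym X)) (U (suppF X) x)ᶜ ∧
      ¬ IsOpen[semiZariski (FSym X)] (U (suppF X) x) := by
  refine ⟨isSuppPerfect, fun x => ⟨dense_Fix x, fun hopen => ?_⟩⟩
  let _ := semiZariski (FSym X)
  obtain ⟨y, hy⟩ := exists_ne x
  obtain ⟨g, hg1, hg2⟩ := (dense_Fix x).inter_open_nonempty _ hopen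
    ⟨tr x y, by change (tr x y).1 x ≠ x; rw [tr_left]; exact hy⟩
  exact hg2 hg1

end Pool.Agent.Results.MP_496bc7_gt.FinitaryPerms
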