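import Pool.Agent.H73.SuppDefs

/-!
# A supp-perfect semigroup with a Hausdorff semigroup topology in which `U_x` is not open

The semigroup is `S = {0, e, f} ∪ {s_n : n ≥ 1} ∪ {pairs {i, j} : i < j}`; all products lie
in `{0, e}` and a product one of whose factors is `0` or `e` equals `0`.
The supports are `supp 0 = supp e = ∅`, `supp f = {0}`, `supp s_n = {1, …, n}` and
`supp {i, j} = {i, j}`, and `s_n → f` in a Hausdorff semigroup topology.
-/

namespace Pool.Agent.Results.MP_496bc7_gt.NilpotentCounterexample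

open Pool.Agent.H73.Supp Set
open scoped Topology

/-- The underlying set: `s n` stands for `s_{n+1}`, and `q i d` for the pair `{i, i+d+1}`. -/
inductive N : Type
  | zero : N
  | e : N
  | f : N
  | s (n : ℕ) : N
  | q (i d : ℕ) : N

open N

/-- `hit a b` says that the product of `a` and `b` is `e`. -/
def hit : N → N → Prop
  | f, q i _ => i = 0
  | s n, q i d => (i = 0 ∧ d ≤ n) ∨ (1 ≤ i ∧ i ≤ n + 1 ∧ n < i + d)
  | q i d, q k l => (i < k ∨ (i = k ∧ d < l)) ∧
      (i = k ∨ i = k + l + 1 ∨ i + d + 1 = k ∨ i + d + 1 = k + l + 1)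
  | _, _ => False

/-- The product. -/
noncomputable def mulN (a b : N) : N := by
  classical
  exact if hit a b then e else zero

lemma mulN_eq_or (a b : N) : mulN a b = e ∨ mulN a b = zero := by
  unfold mulN; split_ifs <;> simp

lemma mulN_of_hit {a b : N} (h : hit a b) : mulN a b = e := by
  unfold mulN; rw [if_pos h]

lemma mulN_of_not_hit {a b : N} (h : ¬ hit a b) : mulN a b = zero := by
  unfold mulN; rw [if_neg h]

lemma mulN_congr {a b c d : N} (h : hit a b ↔ hit c d) : mulN a b = mulN c d := by
  by_cases h' : hit c d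
  · rw [mulN_of_hit h', mulN_of_hit (h.2 h')]
  · rw [mulN_of_not_hit h', mulN_of_not_hit (fun k => h' (h.1 k))]

noncomputable instance instSemigroupN : Semigroup N where
  mul := mulN
  mul_assoc a b c := by
    change mulN (mulN a b) c = mulN a (mulN b c)
    have h1 : ¬ hit (mulN a b) c := by
      rcases mulN_eq_or a b with h | h <;> rw [h] <;> simp [hit]
    have h2 : ¬ hit a (mulN b c) := by
      rcases mulN_eq_or b c with h | h <;> rw [h] <;> cases a <;> simp [hit]
    rw [mulN_of_not_hit h1, mulN_of_not_hit h2]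

lemma mul_def (a b : N) : a * b = mulN a b := rfl

/-- The support map. -/
def suppN : N → Set ℕ
  | zero => ∅
  | e => ∅
  | f => {0}
  | s n => Set.Icc 1 (n + 1)
  | q i d => {i, i + d + 1}

lemma not_hit_of_disjoint {a b : N} (h : suppN a ∩ suppN b = ∅) : ¬ hit a b := by
  intro hab
  have key : ∀ x, x ∈ suppN a → x ∈ suppN b → False := by
    intro x h1 h2
    have : x ∈ suppN a ∩ suppN b := ⟨h1, h2⟩
    rw [h] at this
    exact this
  cases a with
  | zero => simp [hit] at hab
  | e => simp [hit] at hab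
  | f =>
    cases b with
    | q i d =>
      simp only [hit] at hab
      subst hab
      exact key 0 (by simp [suppN]) (by simp [suppN])
    | _ => simp [hit] at hab
  | s n =>
    cases b with
    | q i d =>
      simp only [hit] at hab
      rcases hab with ⟨h1, h2⟩ | ⟨h1, h2, h3⟩
      · exact key (i + d + 1) (by simp [suppN]; omega) (by simp [suppN])
      · exact key i (by simp [suppN]; omega) (by simp [suppN])
    | _ => simp [hit] at hab
  | q i d =>
    cases b with
    | q k l =>
      simp only [hit] at hab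
      obtain ⟨-, h1 | h1 | h1 | h1⟩ := hab
      · exact key i (by simp [suppN]) (by simp [suppN, h1])
      · exact key i (by simp [suppN]) (by simp [suppN, h1])
      · exact key (i + d + 1) (by simp [suppN]) (by simp [suppN, h1])
      · exact key (i + d + 1) (by simp [suppN]) (by simp [suppN, h1])
    | _ => simp [hit] at hab

lemma suppN_finite (a : N) : (suppN a).Finite := by
  cases a <;> simp [suppN, Set.finite_Icc]

lemma comm_of_disjoint (a b : N) (h : suppN a ∩ suppN b = ∅) : a * b = b * a := by
  rw [mul_def, mul_def, mulN_of_not_hit (not_hit_of_disjoint h),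
    mulN_of_not_hit (not_hit_of_disjoint (by rw [Set.inter_comm]; exact h))]

lemma isSuppSemigroup : IsSuppSemigroup suppN where
  mul_subset a b := by
    rw [mul_def]
    rcases mulN_eq_or a b with h | h <;> rw [h] <;> simp [suppN]
  comm := comm_of_disjoint
  union_eq := by
    rw [Set.eq_univ_iff_forall]
    intro x
    rw [Set.mem_iUnion]
    exact ⟨q x 0, by simp [suppN]⟩

lemma finite_supportedIn (F : Set ℕ) (hF : F.Finite) : (supportedIn suppN F).Finite := by
  obtain ⟨M, hM⟩ := hF.bddAbove
  have hsub : supportedIn suppN F ⊆ ({zero, e, f} : Set N) ∪ (s '' Set.Iic M) ∪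
      ((fun p : ℕ × ℕ => q p.1 p.2) '' (Set.Iic M ×ˢ Set.Iic M)) := by
    intro a ha
    cases a with
    | zero => simp
    | e => simp
    | f => simp
    | s n =>
      have : n + 1 ∈ F := ha (by simp [suppN])
      have := hM this
      simp
      omega
    | q i d =>
      have : i + d + 1 ∈ F := ha (by simp [suppN])
      have := hM this
      simp
      omega
  refine Set.Finite.subset ?_ hsub
  refine Set.Finite.union (Set.Finite.union (by simp) ((Set.finite_Iic M).image _)) ?_
  exact ((Set.finite_Iic M).prod (Set.finite_Iic M)).image _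

lemma supportedIn_eq (F : Set ℕ) (hF : F.Finite) :
    supportedIn suppN F = Cent (supportedIn suppN Fᶜ) := by
  obtain ⟨M, hM⟩ := hF.bddAbove
  have hM' : ∀ y, M < y → y ∈ Fᶜ := fun y hy hyF => absurd (hM hyF) (by omega)
  apply Set.Subset.antisymm
  · intro a ha t ht
    apply comm_of_disjoint
    apply Set.eq_empty_of_forall_notMem
    rintro x ⟨h1, h2⟩
    exact ht h2 (ha h1)
  · intro a ha x hx
    by_contra hxF
    -- `q x k` lies in `S(Fᶜ)` for large `k`
    have hq : ∀ k, M ≤ k → q x k ∈ supportedIn suppN Fᶜ := by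
      intro k hk y hy
      simp only [suppN, Set.mem_insert_iff, Set.mem_singleton_iff] at hy
      rcases hy with rfl | rfl
      · exact hxF
      · exact hM' _ (by omega)
    have hcomm : ∀ k, M ≤ k → (hit a (q x k) ↔ hit (q x k) a) := by
      intro k hk
      have h := ha _ (hq k hk)
      rw [mul_def, mul_def] at h
      by_cases h1 : hit a (q x k) <;> by_cases h2 : hit (q x k) a
      · simp [h1, h2]
      · rw [mulN_of_hit h1, mulN_of_not_hit h2] at h; simp at h
      · rw [mulN_of_hit h2, mulN_of_not_hit h1] at h; simp at h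
      · simp [h1, h2]
    cases a with
    | zero => simp [suppN] at hx
    | e => simp [suppN] at hx
    | f =>
      simp only [suppN, Set.mem_singleton_iff] at hx
      have := hcomm M le_rfl
      simp [hit, hx] at this
    | s n =>
      simp only [suppN, Set.mem_Icc] at hx
      have := hcomm (M + n + 1) (by omega)
      simp only [hit, iff_false] at this
      exact this (Or.inr ⟨hx.1, hx.2, by omega⟩)
    | q i d =>
      simp only [suppN, Set.mem_insert_iff, Set.mem_singleton_iff] at hx
      have := hcomm (M + i + d + 2) (by omega)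
      simp only [hit] at this
      omega

lemma isSuppPerfect : IsSuppPerfect suppN where
  isSuppSemigroup := isSuppSemigroup
  finite_supp := suppN_finite
  finite_supportedIn := finite_supportedIn
  supportedIn_eq := supportedIn_eq

/-- The topology: all points but `f` are isolated, and `s_n → f`. -/
@[reducible] def topN : TopologicalSpace N where
  IsOpen V := f ∈ V → ∃ m, ∀ n, m ≤ n → s n ∈ V
  isOpen_univ := fun _ => ⟨0, fun _ _ => trivial⟩
  isOpen_inter V W hV hW h := by
    obtain ⟨m, hm⟩ := hV h.1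
    obtain ⟨k, hk⟩ := hW h.2
    exact ⟨max m k, fun n hn => ⟨hm n (le_trans (le_max_left _ _) hn),
      hk n (le_trans (le_max_right _ _) hn)⟩⟩
  isOpen_sUnion 𝒱 h𝒱 h := by
    obtain ⟨V, hV, hf⟩ := h
    obtain ⟨m, hm⟩ := h𝒱 V hV hf
    exact ⟨m, fun n hn => ⟨V, hV, hm n hn⟩⟩

lemma isOpen_iff (V : Set N) : IsOpen[topN] V ↔ (f ∈ V → ∃ m, ∀ n, m ≤ n → s n ∈ V) := Iff.rfl

lemma t2 : @T2Space N topN := by
  let _ := topN
  -- `f` can be separated from every other point
  have key : ∀ a : N, a ≠ f → ∃ V : Set N, IsOpen V ∧ f ∈ V ∧ a ∉ V := by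
    intro a ha
    refine ⟨{a}ᶜ, ?_, ?_, ?_⟩
    · change IsOpen[topN] _
      rw [isOpen_iff]
      intro _
      cases a with
      | s k => exact ⟨k + 1, fun n hn => by simp; omega⟩
      | _ => exact ⟨0, fun n hn => by simp⟩
    · simpa using ha.symm
    · simp
  have hsing : ∀ a : N, a ≠ f → IsOpen ({a} : Set N) := by
    intro a ha
    change IsOpen[topN] _
    rw [isOpen_iff]
    intro h
    exact absurd h.symm ha
  refine ⟨fun a b hab => ?_⟩
  by_cases ha : a = f
  · subst ha
    obtain ⟨V, hV, h1, h2⟩ := key b (Ne.symm hab)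
    exact ⟨V, {b}, hV, hsing b (Ne.symm hab), h1, rfl, by
      rw [Set.disjoint_singleton_right]; exact h2⟩
  · by_cases hb : b = f
    · subst hb
      obtain ⟨V, hV, h1, h2⟩ := key a hab
      exact ⟨{a}, V, hsing a hab, hV, rfl, h1, by
        rw [Set.disjoint_singleton_left]; exact h2⟩
    · exact ⟨{a}, {b}, hsing a ha, hsing b hb, rfl, rfl, by
        rw [Set.disjoint_singleton]; exact hab⟩

/-- A basic neighbourhood of `a`, of size `m`. -/
def nb (a : N) (m : ℕ) : Set N := {b | b = a ∨ (a = f ∧ ∃ n, m ≤ n ∧ b = s n)}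

lemma isOpen_nb (a : N) (m : ℕ) : IsOpen[topN] (nb a m) := by
  rw [isOpen_iff]
  rintro (h | ⟨-, n, -, h⟩)
  · exact ⟨m, fun n hn => Or.inr ⟨h.symm, n, hn, rfl⟩⟩
  · cases h

lemma exists_nb (a b : N) : ∃ m, ∀ a' ∈ nb a m, ∀ b' ∈ nb b m, (hit a' b' ↔ hit a b) := by
  cases b with
  | q i d =>
    refine ⟨i + d + 1, ?_⟩
    rintro a' (rfl | ⟨rfl, n, hn, rfl⟩) b' (rfl | ⟨h, -⟩)
    · rfl
    · cases h
    · simp only [hit]
      omega
    · cases h
  | f =>
    refine ⟨0, ?_⟩
    rintro a' (rfl | ⟨rfl, n, hn, rfl⟩) b' (rfl | ⟨-, k, -, rfl⟩)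
    · rfl
    · cases a' <;> simp [hit]
    · simp [hit]
    · simp [hit]
  | zero =>
    refine ⟨0, ?_⟩
    rintro a' (rfl | ⟨rfl, n, hn, rfl⟩) b' (rfl | ⟨h, -⟩)
    · rfl
    · cases h
    · simp [hit]
    · cases h
  | e =>
    refine ⟨0, ?_⟩
    rintro a' (rfl | ⟨rfl, n, hn, rfl⟩) b' (rfl | ⟨h, -⟩)
    · rfl
    · cases h
    · simp [hit]
    · cases h
  | s k =>
    refine ⟨0, ?_⟩
    rintro a' (rfl | ⟨rfl, n, hn, rfl⟩) b' (rfl | ⟨h, -⟩)
    · rfl
    · cases h
    · simp [hit]
    · cases h

lemma continuous_mulN : @Continuous (N × N) N (@instTopologicalSpaceProd N N topN topN) topN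
    (fun p : N × N => p.1 * p.2) := by
  let _ := topN
  refine continuous_def.2 fun V _ => ?_
  rw [isOpen_prod_iff]
  intro a b hab
  obtain ⟨m, hm⟩ := exists_nb a b
  refine ⟨nb a m, nb b m, isOpen_nb a m, isOpen_nb b m, Or.inl rfl, Or.inl rfl, ?_⟩
  rintro ⟨a', b'⟩ ⟨ha', hb'⟩
  have : a' * b' = a * b := mulN_congr (hm a' ha' b' hb')
  change a' * b' ∈ V
  rw [this]
  exact hab

lemma not_isOpen : ¬ IsOpen[topN] (U suppN 0) := by
  rw [isOpen_iff]
  intro h
  obtain ⟨m, hm⟩ := h (by simp [U, suppN])
  have := hm m le_rfl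
  simp [U, suppN] at this

instance countable_N : Countable N := by
  refine Function.Injective.countable (f := fun a : N => match a with
    | zero => ((0, 0, 0) : ℕ × ℕ × ℕ)
    | e => (1, 0, 0)
    | f => (2, 0, 0)
    | s n => (3, n, 0)
    | q i d => (4, i, d)) ?_
  intro a b hab
  cases a <;> cases b <;> simp_all

lemma mul_mul_eq_zero (a b c : N) : a * b * c = zero := by
  rw [mul_def, mul_def]
  apply mulN_of_not_hit
  rcases mulN_eq_or a b with h | h <;> rw [h] <;> simp [hit]

/-- **A negative answer to Q2 (hence to Q1).** There are a countable, nilpotent supp-perfect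
semigroup `(S, supp)` (all products of three elements are equal), a point `x` and a Hausdorff
semigroup topology `τ` on `S` in which `U_x` is not open. -/
theorem result : ∃ (S X : Type) (_ : Semigroup S) (supp : S → Set X) (x : X)
    (τ : TopologicalSpace S), Countable S ∧ (∀ a b c a' b' c' : S, a * b * c = a' * b' * c') ∧
      IsSuppPerfect supp ∧ IsHausdorffSemigroupTopology τ ∧ ¬ IsOpen[τ] (U supp x) :=
  ⟨N, ℕ, inferInstance, suppN, 0, topN, inferInstance,
    fun a b c a' b' c' => (mul_mul_eq_zero a b c).trans (mul_mul_eq_zero a' b' c').symm,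
    isSuppPerfect, ⟨t2, continuous_mulN⟩, not_isOpen⟩

end Pool.Agent.Results.MP_496bc7_gt.NilpotentCounterexample
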